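import Pool.Agent.H741R3.BykCocycle

/-!
The generalized Bykovskii presentation fails for the ring of integers of `ℚ(√3)`, which is
Euclidean and additively generated by its units.
-/

open scoped BigOperators NumberField
open Pool.Agent.H741R3.Byk

namespace Pool.Agent.Results.MP_b7d0e6_al.BykSqrtThree

noncomputable section

/-- A commutative ring is Euclidean for some Euclidean function with values in `ℕ`. -/
def IsEuclideanRing (R : Type*) [CommRing R] : Prop :=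
  ∃ φ : R → ℕ, ∀ a b : R, b ≠ 0 → ∃ q r : R, a = b * q + r ∧ (r = 0 ∨ φ r < φ b)

/-- Every element is a finite sum of units. -/
def GeneratedByUnits (R : Type*) [CommRing R] : Prop :=
  ∀ x : R, x ∈ AddSubmonoid.closure {u : R | IsUnit u}

instance fact_three : Fact (∀ r : ℚ, r ^ 2 ≠ 3 + 0 * r) := by
  constructor
  intro r hr
  have h1 : Irrational (√(3 : ℕ)) := Nat.Prime.irrational_sqrt (by norm_num)
  apply h1
  refine ⟨|r|, ?_⟩
  have h2 : ((|r| : ℚ) : ℝ) ^ 2 = 3 := by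
    have : (|r| : ℚ) ^ 2 = 3 := by rw [sq_abs, hr]; ring
    exact_mod_cast this
  have h3 : (0 : ℝ) ≤ ((|r| : ℚ) : ℝ) := by exact_mod_cast abs_nonneg r
  symm
  rw [Real.sqrt_eq_iff_mul_self_eq (by norm_num) h3]
  push_cast at h2 ⊢
  linarith

/-- The field `ℚ(√3)`, as pairs `(re, im)` standing for `re + im √3`. -/
abbrev F : Type := QuadraticAlgebra ℚ 3 0

instance : NumberField F where
  to_charZero := inferInstance
  to_finiteDimensional := inferInstance

/-- The two real embeddings: `re + im √3 ↦ re + im t` with `t * t = 3`. -/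
def emb (t : ℝ) (ht : t * t = 3) : F →ₐ[ℚ] ℝ :=
  QuadraticAlgebra.lift ⟨t, by rw [ht]; simp [Algebra.smul_def]⟩

lemma emb_apply (t : ℝ) (ht : t * t = 3) (x : F) : emb t ht x = x.re + x.im * t := by
  change x.re • (1 : ℝ) + x.im • t = x.re + x.im * t
  simp [Algebra.smul_def]

lemma sqrt_mul : (√3 : ℝ) * √3 = 3 := Real.mul_self_sqrt (by norm_num)
lemma neg_sqrt_mul : (-√3 : ℝ) * (-√3) = 3 := by rw [neg_mul_neg]; exact sqrt_mul

lemma int_of_isIntegral {q : ℚ} (h : IsIntegral ℤ (q : ℝ)) : ∃ m : ℤ, (m : ℚ) = q := by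
  have h1 : IsIntegral ℤ q := by
    have : IsIntegral ℤ (algebraMap ℚ ℝ q) := by simpa using h
    exact (isIntegral_algebraMap_iff (algebraMap ℚ ℝ).injective).1 this
  obtain ⟨m, hm⟩ := IsIntegrallyClosed.isIntegral_iff.1 h1
  exact ⟨m, by simpa using hm⟩

/-- Integers of `ℚ(√3)` are the `a + b √3` with `a`, `b` integers. -/
lemma exists_int (x : F) (hx : IsIntegral ℤ x) : ∃ a b : ℤ, x.re = a ∧ x.im = b := by
  have h1 : IsIntegral ℤ (emb _ sqrt_mul x) := hx.map (emb _ sqrt_mul)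
  have h2 : IsIntegral ℤ (emb _ neg_sqrt_mul x) := hx.map (emb _ neg_sqrt_mul)
  have hs := h1.add h2
  have hp := h1.mul h2
  rw [emb_apply, emb_apply] at hs hp
  have e1 : ((x.re : ℝ) + x.im * √3 + (x.re + x.im * -√3)) = ((2 * x.re : ℚ) : ℝ) := by
    push_cast; ring
  have e2 : ((x.re : ℝ) + x.im * √3) * (x.re + x.im * -√3)
      = ((x.re ^ 2 - 3 * x.im ^ 2 : ℚ) : ℝ) := by
    push_cast
    have := sqrt_mul
    linear_combination (-(x.im : ℝ) ^ 2) * this
  rw [e1] at hs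
  rw [e2] at hp
  obtain ⟨P, hP⟩ := int_of_isIntegral hs
  obtain ⟨N, hN⟩ := int_of_isIntegral hp
  -- 6 im is an integer
  have hR : ∃ R : ℤ, (R : ℚ) = 6 * x.im := by
    apply int_of_isIntegral
    apply IsIntegral.of_pow (n := 2) (by norm_num)
    have : (((6 * x.im : ℚ) : ℝ)) ^ 2 = ((3 * (P ^ 2 - 4 * N) : ℤ) : ℝ) := by
      have h : ((6 * x.im : ℚ)) ^ 2 = ((3 * (P ^ 2 - 4 * N) : ℤ) : ℚ) := by
        push_cast
        rw [hP, hN]; ring
      exact_mod_cast h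
    rw [this]
    exact isIntegral_algebraMap (R := ℤ) (x := 3 * (P ^ 2 - 4 * N))
  obtain ⟨R, hR⟩ := hR
  have hR2 : R ^ 2 = 3 * (P ^ 2 - 4 * N) := by
    have h : ((R : ℚ)) ^ 2 = 3 * ((P : ℚ) ^ 2 - 4 * N) := by
      rw [hR, hP, hN]; ring
    exact_mod_cast h
  have hd3 : (3 : ℤ) ∣ R := by
    have h3 : Prime (3 : ℤ) := Int.prime_three
    exact h3.dvd_of_dvd_pow (Dvd.intro _ hR2.symm)
  obtain ⟨Q, hQ⟩ := hd3
  subst hQ
  have hQ2 : P ^ 2 - 3 * Q ^ 2 = 4 * N := by nlinarith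
  have hPQ : (2 : ℤ) ∣ P ∧ (2 : ℤ) ∣ Q := by
    have h4 : (P ^ 2 - 3 * Q ^ 2) % 4 = 0 := by rw [hQ2]; simp
    have hP4 : P % 4 = 0 ∨ P % 4 = 1 ∨ P % 4 = 2 ∨ P % 4 = 3 := by omega
    have hQ4 : Q % 4 = 0 ∨ Q % 4 = 1 ∨ Q % 4 = 2 ∨ Q % 4 = 3 := by omega
    rcases hP4 with h | h | h | h <;> rcases hQ4 with h' | h' | h' | h' <;>
      simp [pow_two, Int.sub_emod, Int.mul_emod, h, h'] at h4 ⊢ <;> omega
  obtain ⟨⟨a, ha⟩, ⟨b, hb⟩⟩ := hPQ
  refine ⟨a, b, ?_, ?_⟩
  · have : (2 : ℚ) * x.re = 2 * a := by rw [← hP, ha]; push_cast; ring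
    linarith
  · have : (6 : ℚ) * x.im = 6 * b := by rw [← hR, hb]; push_cast; ring
    linarith

/-- The element `a + b √3` of the ring of integers. -/
def elt (a b : ℤ) : 𝓞 F :=
  ⟨⟨a, b⟩, by
    have h1 : (⟨a, b⟩ : F) = algebraMap ℤ F a + algebraMap ℤ F b * ⟨0, 1⟩ := by
      ext <;> simp
    rw [h1]
    have h2 : IsIntegral ℤ (⟨0, 1⟩ : F) := by
      apply IsIntegral.of_pow (n := 2) (by norm_num)
      have : (⟨0, 1⟩ : F) ^ 2 = algebraMap ℤ F 3 := by
        rw [pow_two]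
        ext
        · simp; rfl
        · simp; rfl
      rw [this]
      exact isIntegral_algebraMap
    exact (isIntegral_algebraMap.add (isIntegral_algebraMap.mul h2))⟩

lemma ext' {x y : 𝓞 F} (h : algebraMap (𝓞 F) F x = algebraMap (𝓞 F) F y) : x = y :=
  NumberField.RingOfIntegers.ext h

lemma exists_elt (x : 𝓞 F) : ∃ a b : ℤ, x = elt a b := by
  obtain ⟨a, b, ha, hb⟩ := exists_int (x : F) x.isIntegral_coe
  refine ⟨a, b, ?_⟩
  apply NumberField.RingOfIntegers.ext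
  change (x : F) = ⟨a, b⟩
  ext
  · exact ha
  · exact hb

lemma coe_elt (a b : ℤ) : ((elt a b : 𝓞 F) : F) = ⟨a, b⟩ := rfl

lemma elt_inj {a b c d : ℤ} (h : elt a b = elt c d) : a = c ∧ b = d := by
  have h1 := congrArg (fun x : 𝓞 F => (x : F)) h
  simp only [coe_elt] at h1
  have h2 := congrArg QuadraticAlgebra.re h1
  have h3 := congrArg QuadraticAlgebra.im h1
  simp only at h2 h3
  exact ⟨by exact_mod_cast h2, by exact_mod_cast h3⟩

lemma elt_mul (a b c d : ℤ) : elt a b * elt c d = elt (a * c + 3 * b * d) (a * d + b * c) := by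
  apply ext'
  rw [map_mul]
  change (⟨a, b⟩ : F) * ⟨c, d⟩ = ⟨((a * c + 3 * b * d : ℤ) : ℚ), ((a * d + b * c : ℤ) : ℚ)⟩
  ext
  · simp
  · simp

lemma elt_add (a b c d : ℤ) : elt a b + elt c d = elt (a + c) (b + d) := by
  apply ext'
  rw [map_add]
  change (⟨a, b⟩ : F) + ⟨c, d⟩ = ⟨((a + c : ℤ) : ℚ), ((b + d : ℤ) : ℚ)⟩
  ext <;> simp

lemma elt_one : elt 1 0 = 1 := by
  apply ext'
  rw [map_one]
  change (⟨((1 : ℤ) : ℚ), ((0 : ℤ) : ℚ)⟩ : F) = 1
  ext
  · simp; rfl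
  · simp; rfl

lemma elt_zero : elt 0 0 = 0 := by
  apply ext'
  rw [map_zero]
  change (⟨((0 : ℤ) : ℚ), ((0 : ℤ) : ℚ)⟩ : F) = 0
  ext <;> simp

lemma elt_neg (a b : ℤ) : -elt a b = elt (-a) (-b) := by
  rw [neg_eq_iff_add_eq_zero, elt_add]
  simp [elt_zero]

/-- Every unit of `ℤ[√3]` has norm `1`. -/
lemma norm_unit (a b : ℤ) (h : IsUnit (elt a b)) : a ^ 2 - 3 * b ^ 2 = 1 := by
  obtain ⟨y, hy⟩ := h.exists_right_inv
  obtain ⟨c, d, rfl⟩ := exists_elt y
  rw [elt_mul, ← elt_one] at hy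
  obtain ⟨h1, h2⟩ := elt_inj hy
  have hN : (a ^ 2 - 3 * b ^ 2) * (c ^ 2 - 3 * d ^ 2) = 1 := by
    have : (a ^ 2 - 3 * b ^ 2) * (c ^ 2 - 3 * d ^ 2)
        = (a * c + 3 * b * d) ^ 2 - 3 * (a * d + b * c) ^ 2 := by ring
    rw [this, h1, h2]; norm_num
  rcases Int.eq_one_or_neg_one_of_mul_eq_one hN with h | h
  · exact h
  · exfalso
    have h3 : (a ^ 2 - 3 * b ^ 2) % 3 = 2 := by rw [h]; norm_num
    have ha : a % 3 = 0 ∨ a % 3 = 1 ∨ a % 3 = 2 := by omega
    have h4 : (a ^ 2 - 3 * b ^ 2) % 3 = (a ^ 2) % 3 := by omega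
    rw [h4] at h3
    rcases ha with ha | ha | ha <;> simp [pow_two, Int.mul_emod, ha] at h3

/-- Real embedding of the ring of integers. -/
def re₁ : 𝓞 F →+* ℝ := (emb _ sqrt_mul).toRingHom.comp (algebraMap (𝓞 F) F)
/-- Real embedding of the ring of integers. -/
def re₂ : 𝓞 F →+* ℝ := (emb _ neg_sqrt_mul).toRingHom.comp (algebraMap (𝓞 F) F)

lemma re₁_elt (a b : ℤ) : re₁ (elt a b) = a + b * √3 := by
  change emb _ sqrt_mul (⟨a, b⟩ : F) = _
  rw [emb_apply]; simp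

lemma re₂_elt (a b : ℤ) : re₂ (elt a b) = a + b * (-√3) := by
  change emb _ neg_sqrt_mul (⟨a, b⟩ : F) = _
  rw [emb_apply]; simp

lemma unit_sign (u : (𝓞 F)ˣ) : 0 < re₁ u * re₂ u := by
  obtain ⟨a, b, hab⟩ := exists_elt (u : 𝓞 F)
  have h1 := norm_unit a b (hab ▸ u.isUnit)
  rw [hab, re₁_elt, re₂_elt]
  have h2 : ((a : ℝ) + b * √3) * (a + b * -√3) = ((a ^ 2 - 3 * b ^ 2 : ℤ) : ℝ) := by
    push_cast
    linear_combination (-(b : ℝ) ^ 2) * sqrt_mul
  rw [h2, h1]; norm_num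

lemma generatedByUnits : GeneratedByUnits (𝓞 F) := by
  intro x
  obtain ⟨a, b, rfl⟩ := exists_elt x
  set S : AddSubmonoid (𝓞 F) := AddSubmonoid.closure {u : 𝓞 F | IsUnit u} with hS
  have key : ∀ u : 𝓞 F, IsUnit u → ∀ m : ℤ, m • u ∈ S := by
    intro u hu m
    rcases Int.eq_nat_or_neg m with ⟨k, rfl | rfl⟩
    · rw [natCast_zsmul]
      exact S.nsmul_mem (AddSubmonoid.subset_closure hu) k
    · rw [neg_smul, natCast_zsmul, ← smul_neg]
      exact S.nsmul_mem (AddSubmonoid.subset_closure hu.neg) k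
  have hu : IsUnit (elt 2 1) := by
    apply IsUnit.of_mul_eq_one (elt 2 (-1))
    rw [elt_mul, ← elt_one]
    norm_num
  have hz : ∀ (m c d : ℤ), m • elt c d = elt (m * c) (m * d) := by
    intro m c d
    apply ext'
    rw [map_zsmul]
    change m • (⟨c, d⟩ : F) = ⟨((m * c : ℤ) : ℚ), ((m * d : ℤ) : ℚ)⟩
    ext <;> simp
  have e : elt a b = (a - 2 * b) • (1 : 𝓞 F) + b • elt 2 1 := by
    rw [← elt_one, hz, hz, elt_add]
    congr 1 <;> ring
  rw [e]
  exact S.add_mem (key 1 isUnit_one _) (key _ hu _)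

lemma isEuclideanRing : IsEuclideanRing (𝓞 F) := by
  classical
  refine ⟨fun x => (⌊(x : F).re ^ 2 - 3 * (x : F).im ^ 2⌋).natAbs, ?_⟩
  intro x y hy
  obtain ⟨a, b, rfl⟩ := exists_elt x
  obtain ⟨c, d, rfl⟩ := exists_elt y
  have hval : ∀ (m k : ℤ), ⌊((elt m k : 𝓞 F) : F).re ^ 2 - 3 * ((elt m k : 𝓞 F) : F).im ^ 2⌋
      = m ^ 2 - 3 * k ^ 2 := by
    intro m k
    have : ((elt m k : 𝓞 F) : F).re ^ 2 - 3 * ((elt m k : 𝓞 F) : F).im ^ 2
        = ((m ^ 2 - 3 * k ^ 2 : ℤ) : ℚ) := by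
      rw [coe_elt]; push_cast; ring
    rw [this, Int.floor_intCast]
  have hN : (c ^ 2 - 3 * d ^ 2 : ℤ) ≠ 0 := by
    intro h
    apply hy
    have hfact := fact_three.out
    by_cases hd : d = 0
    · subst hd
      have : c = 0 := by
        have : c ^ 2 = 0 := by linarith
        exact pow_eq_zero_iff (two_ne_zero) |>.1 this
      subst this
      exact elt_zero
    · exfalso
      apply hfact ((c : ℚ) / d)
      have hd' : (d : ℚ) ≠ 0 := by exact_mod_cast hd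
      have h' : ((c : ℚ)) ^ 2 - 3 * (d : ℚ) ^ 2 = 0 := by exact_mod_cast h
      field_simp
      linarith
  set N : ℤ := c ^ 2 - 3 * d ^ 2 with hNdef
  have hNq : (N : ℚ) ≠ 0 := by exact_mod_cast hN
  -- x / y = (p + q √3) with p = (ac - 3bd)/N, q = (bc - ad)/N
  set p : ℚ := ((a * c - 3 * b * d : ℤ) : ℚ) / N with hp
  set q : ℚ := ((b * c - a * d : ℤ) : ℚ) / N with hq
  have hpN : p * N = a * c - 3 * b * d := by
    rw [hp, div_mul_cancel₀ _ hNq]; push_cast; ring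
  have hqN : q * N = b * c - a * d := by
    rw [hq, div_mul_cancel₀ _ hNq]; push_cast; ring
  set m : ℤ := round p with hm
  set k : ℤ := round q with hk
  refine ⟨elt m k, elt (a - (c * m + 3 * d * k)) (b - (c * k + d * m)), ?_, ?_⟩
  · rw [elt_mul, elt_add]
    congr 1 <;> ring
  · right
    simp only [hval]
    rw [← hNdef]
    have h1 := abs_sub_round p
    have h2 := abs_sub_round q
    rw [← hm] at h1
    rw [← hk] at h2
    have hA : (p - m) ^ 2 ≤ 1 / 4 := by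
      have := sq_le_sq' (by linarith [neg_abs_le (p - m)] : -(1/2) ≤ p - m) (by linarith [le_abs_self (p - m)])
      linarith
    have hB : (q - k) ^ 2 ≤ 1 / 4 := by
      have := sq_le_sq' (by linarith [neg_abs_le (q - k)] : -(1/2) ≤ q - k) (by linarith [le_abs_self (q - k)])
      linarith
    have hC : |(p - m) ^ 2 - 3 * (q - k) ^ 2| < 1 := by
      rw [abs_lt]
      constructor <;> nlinarith [sq_nonneg (p - m), sq_nonneg (q - k)]
    have hD : (((a - (c * m + 3 * d * k)) ^ 2 - 3 * (b - (c * k + d * m)) ^ 2 : ℤ) : ℚ)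
        = N * ((p - m) ^ 2 - 3 * (q - k) ^ 2) := by
      have hNc : (N : ℚ) = (c : ℚ) ^ 2 - 3 * (d : ℚ) ^ 2 := by rw [hNdef]; push_cast; ring
      have ha : (a : ℚ) = c * p + 3 * d * q := by
        have : (N : ℚ) * a = N * (c * p + 3 * d * q) := by
          have e : (N : ℚ) * (c * p + 3 * d * q) = c * (p * N) + 3 * d * (q * N) := by ring
          rw [e, hpN, hqN, hNc]; ring
        exact mul_left_cancel₀ hNq this
      have hb : (b : ℚ) = c * q + d * p := by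
        have : (N : ℚ) * b = N * (c * q + d * p) := by
          have e : (N : ℚ) * (c * q + d * p) = c * (q * N) + d * (p * N) := by ring
          rw [e, hpN, hqN, hNc]; ring
        exact mul_left_cancel₀ hNq this
      push_cast
      rw [hNc, ha, hb]
      ring
    have hE : |(((a - (c * m + 3 * d * k)) ^ 2 - 3 * (b - (c * k + d * m)) ^ 2 : ℤ) : ℚ)|
        < |(N : ℚ)| := by
      rw [hD, abs_mul]
      have : 0 < |(N : ℚ)| := abs_pos.2 hNq
      nlinarith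
    have hF : |((a - (c * m + 3 * d * k)) ^ 2 - 3 * (b - (c * k + d * m)) ^ 2 : ℤ)| < |N| := by
      exact_mod_cast hE
    rw [Int.abs_eq_natAbs, Int.abs_eq_natAbs] at hF
    exact_mod_cast hF

lemma adjoin_eq_top : IntermediateField.adjoin ℚ {(⟨0, 1⟩ : F)} = ⊤ := by
  rw [eq_top_iff]
  intro x _
  have hx : x = algebraMap ℚ F x.re + algebraMap ℚ F x.im * ⟨0, 1⟩ := by
    ext <;> simp
  rw [hx]
  exact add_mem (IntermediateField.algebraMap_mem _ _)
    (mul_mem (IntermediateField.algebraMap_mem _ _)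
      (IntermediateField.mem_adjoin_simple_self ℚ _))

/-- **The conjectured equivalence is false.** For `K = ℚ(√3)`, the ring of integers `𝓞 K` is
Euclidean and additively generated by its units, but the natural map
`Byk_2(𝓞 K) → St_2(K)` is not injective; so the generalized Bykovskii presentation fails. -/
theorem result :
    ∃ (K : Type) (_ : Field K) (_ : NumberField K),
      (∃ s : K, s ^ 2 = 3 ∧ IntermediateField.adjoin ℚ {s} = ⊤) ∧
      IsEuclideanRing (𝓞 K) ∧ GeneratedByUnits (𝓞 K) ∧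
      ¬ Function.Injective (bykToSteinberg (𝓞 K) K 2) := by
  refine ⟨F, inferInstance, inferInstance, ⟨⟨0, 1⟩, ?_, adjoin_eq_top⟩, isEuclideanRing,
    generatedByUnits, ?_⟩
  · rw [pow_two]
    ext
    · simp; rfl
    · simp; rfl
  · apply not_injective F (elt 0 1) ?_ re₁ re₂ ?_ ?_ unit_sign
    · rw [elt_mul]
      apply ext'
      change (⟨((0 * 0 + 3 * 1 * 1 : ℤ) : ℚ), ((0 * 1 + 1 * 0 : ℤ) : ℚ)⟩ : F)
        = algebraMap (𝓞 F) F 3
      rw [map_ofNat]
      ext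
      · simp; rfl
      · simp; rfl
    · rw [re₁_elt]; simp
    · rw [re₂_elt]; simp

end

end Pool.Agent.Results.MP_b7d0e6_al.BykSqrtThree
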